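import Mathlib

/-!
# `g_m` is not injective for every composite `m`
-/

namespace Pool.Agent.Results.MP_75d27e_nt.NotInjective

open Finset

/-- `l` is an `m`-product sequence with first term `n` and last term `s`: it is non-decreasing,
its product is a perfect `m`-th power, and no integer occurs more than `m - 1` times in it. -/
def IsProdSeq (m n s : ℕ) (l : List ℕ) : Prop :=
  l.Pairwise (· ≤ ·) ∧ l.head? = some n ∧ l.getLast? = some s ∧
    (∃ R : ℕ, l.prod = R ^ m) ∧ ∀ x, l.count x ≤ m - 1

/-- The set of possible last terms of an `m`-product sequence with first term `n`. -/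
def ends (m n : ℕ) : Set ℕ := {s | ∃ l, IsProdSeq m n s l}

/-- `g_m(n)`: the least last term of an `m`-product sequence with first term `n`. -/
noncomputable def g (m n : ℕ) : ℕ := sInf (ends m n)

/-! ### Elementary facts -/

lemma isPow_of_dvd {N m : ℕ} (hN : N ≠ 0) (h : ∀ q, m ∣ N.factorization q) :
    ∃ R : ℕ, N = R ^ m := by
  refine ⟨∏ q ∈ N.primeFactors, q ^ (N.factorization q / m), ?_⟩
  rw [← Finset.prod_pow]
  have h1 : N = N.factorization.prod (· ^ ·) := (Nat.prod_factorization_pow_eq_self hN).symm
  conv_lhs => rw [h1]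
  rw [Finsupp.prod, Nat.support_factorization]
  refine Finset.prod_congr rfl fun q _ => ?_
  rw [← pow_mul, Nat.div_mul_cancel (h q)]

lemma head_le {l : List ℕ} (hl : l.Pairwise (· ≤ ·)) {n : ℕ} (hn : l.head? = some n) :
    ∀ x ∈ l, n ≤ x := by
  cases l with
  | nil => simp at hn
  | cons a t =>
    simp only [List.head?_cons, Option.some.injEq] at hn
    subst hn
    intro x hx
    rw [List.mem_cons] at hx
    rcases hx with rfl | hx
    · exact le_refl _
    · exact (List.pairwise_cons.mp hl).1 x hx

lemma head_eq {l : List ℕ} (hl : l.Pairwise (· ≤ ·)) {n : ℕ} (hn : n ∈ l)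
    (hle : ∀ x ∈ l, n ≤ x) : l.head? = some n := by
  cases l with
  | nil => simp at hn
  | cons a t =>
    simp only [List.head?_cons, Option.some.injEq]
    have h1 : n ≤ a := hle a (by simp)
    rw [List.mem_cons] at hn
    rcases hn with rfl | hn
    · rfl
    · exact le_antisymm ((List.pairwise_cons.mp hl).1 n hn) h1

lemma le_last {l : List ℕ} (hl : l.Pairwise (· ≤ ·)) {s : ℕ} (hs : l.getLast? = some s) :
    ∀ x ∈ l, x ≤ s := by
  have hr : l.reverse.Pairwise (fun a b => b ≤ a) := by
    rw [List.pairwise_reverse]; exact hl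
  have hh : l.reverse.head? = some s := by rw [List.head?_reverse]; exact hs
  intro x hx
  rw [← List.mem_reverse] at hx
  generalize l.reverse = r at *
  cases r with
  | nil => simp at hx
  | cons a t =>
    simp only [List.head?_cons, Option.some.injEq] at hh
    subst hh
    rw [List.mem_cons] at hx
    rcases hx with rfl | hx
    · exact le_refl _
    · exact (List.pairwise_cons.mp hr).1 x hx

lemma factorization_prod_last {s : ℕ} (hs : s.Prime) (l : List ℕ)
    (hl : ∀ x ∈ l, 1 ≤ x ∧ x ≤ s) : l.prod.factorization s = l.count s ∧ l.prod ≠ 0 := by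
  induction l with
  | nil => simp
  | cons a t ih =>
    obtain ⟨h1, h2⟩ := ih fun x hx => hl x (List.mem_cons_of_mem _ hx)
    obtain ⟨ha1, ha2⟩ := hl a (by simp)
    refine ⟨?_, ?_⟩
    · rw [List.prod_cons, Nat.factorization_mul (by omega) h2, Finsupp.add_apply, h1,
        List.count_cons]
      by_cases has : a = s
      · subst has
        simp [hs.factorization_self, add_comm]
      · have : a.factorization s = 0 := by
          apply Nat.factorization_eq_zero_of_not_dvd
          intro hd
          have := Nat.le_of_dvd (by omega) hd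
          omega
        simp [this, has]
    · rw [List.prod_cons]
      exact mul_ne_zero (by omega) h2

/-- The last term of a sequence with positive first term is not prime. -/
lemma not_prime_of_mem {m n s : ℕ} (hm : 2 ≤ m) (hn : 1 ≤ n) (hs : s ∈ ends m n) :
    ¬ s.Prime := by
  intro hp
  obtain ⟨l, hl, hhead, hlast, ⟨R, hR⟩, hcount⟩ := hs
  have h1 := head_le hl hhead
  have h2 := le_last hl hlast
  obtain ⟨h3, h4⟩ := factorization_prod_last hp l fun x hx => ⟨le_trans hn (h1 x hx), h2 x hx⟩
  have h5 : s ∈ l := List.mem_of_getLast? hlast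
  have h6 : 0 < l.count s := List.count_pos_iff.mpr h5
  have h7 : m ∣ l.count s := by
    rw [← h3, hR, Nat.factorization_pow]
    exact ⟨R.factorization s, by simp⟩
  have h8 := Nat.le_of_dvd h6 h7
  have h9 := hcount s
  omega

lemma zero_mem {m : ℕ} (hm : 2 ≤ m) : (0 : ℕ) ∈ ends m 0 := by
  refine ⟨[0], by simp, by simp, by simp, ⟨0, ?_⟩, ?_⟩
  · rw [zero_pow (by omega)]; simp
  · intro x
    rw [List.count_singleton]
    split_ifs <;> omega

lemma ends_nonempty {m : ℕ} (hm : 3 ≤ m) (n : ℕ) : (ends m n).Nonempty := by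
  rcases Nat.lt_or_ge n 2 with h | h
  · refine ⟨n, [n], by simp, by simp, by simp, ⟨n, ?_⟩, ?_⟩
    · interval_cases n
      · rw [zero_pow (by omega)]; simp
      · simp
    · intro x
      rw [List.count_singleton]
      split_ifs <;> omega
  · have h1 : n < n ^ (m - 1) := by
      calc n = n ^ 1 := (pow_one n).symm
        _ < n ^ (m - 1) := Nat.pow_lt_pow_right (by omega) (by omega)
    refine ⟨n ^ (m - 1), [n, n ^ (m - 1)], ?_, by simp, by simp, ⟨n, ?_⟩, ?_⟩
    · simp [h1.le]
    · simp only [List.prod_cons, List.prod_nil, mul_one]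
      rw [← pow_succ']
      congr 1
      omega
    · intro x
      rw [List.count_cons, List.count_singleton]
      have : ¬ (n ^ (m - 1) = n) := by omega
      by_cases hx : n = x
      · subst hx
        simp [this]
        omega
      · simp only [beq_iff_eq, hx, if_false]
        split_ifs <;> omega

/-! ### The relation modules -/

/-- The primes up to `s`. -/
def P (s : ℕ) : Finset ℕ := (range (s + 1)).filter Nat.Prime

/-- The exponent vector of `n` modulo `m`, restricted to the primes up to `s`. -/
def v (m s n : ℕ) : P s → ZMod m := fun q => (n.factorization q : ZMod m)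

/-- `n` is free if it takes part in no relation among the exponent vectors of `n, …, s`. -/
def Free (m s n : ℕ) : Prop :=
  ∀ c : ℕ → ZMod m, ∑ i ∈ Icc n s, c i • v m s i = 0 → c n = 0

lemma factorization_prod_Icc {s n : ℕ} (hn : 1 ≤ n) (e : ℕ → ℕ) (q : ℕ) :
    (∏ i ∈ Icc n s, i ^ e i).factorization q = ∑ i ∈ Icc n s, e i * i.factorization q := by
  rw [Nat.factorization_prod]
  · rw [Finsupp.finsetSum_apply]
    refine sum_congr rfl fun i _ => ?_
    rw [Nat.factorization_pow]
    simp
  · intro i hi
    rw [mem_Icc] at hi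
    exact pow_ne_zero _ (by omega)

lemma exists_end_of_not_free {m s n : ℕ} (hm : 2 ≤ m) (hn : 1 ≤ n) (hns : n ≤ s)
    (h : ¬ Free m s n) : ∃ s' ∈ ends m n, s' ≤ s := by
  have : NeZero m := ⟨by omega⟩
  unfold Free at h
  push Not at h
  obtain ⟨c, hc, hcn⟩ := h
  set M : Multiset ℕ := ∑ i ∈ Icc n s, Multiset.replicate (c i).val i with hM
  have hcount : ∀ x, M.count x = if x ∈ Icc n s then (c x).val else 0 := by
    intro x
    rw [hM, Multiset.count_sum']
    simp only [Multiset.count_replicate]
    rw [Finset.sum_ite_eq']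
  have hmem : ∀ x ∈ M, n ≤ x ∧ x ≤ s := by
    intro x hx
    have := Multiset.count_pos.mpr hx
    rw [hcount] at this
    split_ifs at this with h1
    · exact mem_Icc.mp h1
    · omega
  have hnM : n ∈ M := by
    rw [← Multiset.count_pos, hcount, if_pos (mem_Icc.mpr ⟨le_refl _, hns⟩)]
    have : (c n).val ≠ 0 := by
      intro h0
      exact hcn ((ZMod.val_eq_zero _).mp h0)
    omega
  set l : List ℕ := M.sort (· ≤ ·) with hl
  have hlM : (l : Multiset ℕ) = M := Multiset.sort_eq _ _
  have hsorted : l.Pairwise (· ≤ ·) := Multiset.pairwise_sort _ _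
  have hmeml : ∀ x, x ∈ l ↔ x ∈ M := fun x => Multiset.mem_sort _
  have hne : l ≠ [] := by
    intro h0
    have := (hmeml n).mpr hnM
    rw [h0] at this
    simp at this
  refine ⟨l.getLast hne, ⟨l, hsorted, ?_, List.getLast?_eq_getLast_of_ne_nil hne, ?_, ?_⟩, ?_⟩
  · exact head_eq hsorted ((hmeml n).mpr hnM) fun x hx => (hmem x ((hmeml x).mp hx)).1
  · have hprod : l.prod = ∏ i ∈ Icc n s, i ^ (c i).val := by
      rw [← Multiset.prod_coe, hlM, hM, Multiset.prod_sum]
      simp
    rw [hprod]
    apply isPow_of_dvd
    · rw [Finset.prod_ne_zero_iff]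
      intro i hi
      rw [mem_Icc] at hi
      exact pow_ne_zero _ (by omega)
    · intro q
      rw [factorization_prod_Icc hn]
      by_cases hq : q ∈ P s
      · rw [← ZMod.natCast_eq_zero_iff]
        have h1 := congrFun hc ⟨q, hq⟩
        rw [Finset.sum_apply] at h1
        simp only [Pi.smul_apply, v, smul_eq_mul, Pi.zero_apply] at h1
        rw [Nat.cast_sum, ← h1]
        refine sum_congr rfl fun i _ => ?_
        rw [Nat.cast_mul, ZMod.natCast_zmod_val]
      · have : ∑ i ∈ Icc n s, (c i).val * i.factorization q = 0 := by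
          apply sum_eq_zero
          intro i hi
          rw [mem_Icc] at hi
          have h0 : i.factorization q = 0 := by
            by_cases hqp : q.Prime
            · apply Nat.factorization_eq_zero_of_not_dvd
              intro hd
              apply hq
              have := Nat.le_of_dvd (by omega) hd
              simp only [P, mem_filter, mem_range]
              exact ⟨by omega, hqp⟩
            · exact Nat.factorization_eq_zero_of_not_prime _ hqp
          rw [h0, mul_zero]
        rw [this]
        exact dvd_zero _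
  · intro x
    rw [← Multiset.coe_count, hlM, hcount]
    split_ifs
    · have := ZMod.val_lt (c x)
      omega
    · omega
  · exact (hmem _ ((hmeml _).mp (List.getLast_mem hne))).2

/-- Counting: with `s = 2 ^ p` there are fewer free integers in `[1, s]` than primes. -/
lemma card_free {m p s : ℕ} (hs : s = 2 ^ p) (hp : p.Prime) (hpm : p ∣ m) (hc : ¬ m.Prime)
    (hm : 2 ≤ m) [DecidablePred (Free m s)] :
    ((Icc 1 s).filter (Free m s)).card < (P s).card := by
  have : NeZero m := ⟨by omega⟩
  set A := (Icc 1 s).filter (Free m s) with hA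
  obtain ⟨k, hk⟩ := hpm
  have hk2 : 2 ≤ k := by
    rcases Nat.lt_or_ge k 2 with h | h
    · exfalso
      interval_cases k
      · omega
      · rw [mul_one] at hk
        exact hc (hk ▸ hp)
    · exact h
  have hs2 : 2 ≤ s := by
    rw [hs]
    calc 2 = 2 ^ 1 := rfl
      _ ≤ 2 ^ p := Nat.pow_le_pow_right (by norm_num) hp.one_lt.le
  -- the exponent vector of `s`
  have h2P : (2 : ℕ) ∈ P s := by
    simp only [P, mem_filter, mem_range]
    exact ⟨by omega, Nat.prime_two⟩
  have hfac : s.factorization = Finsupp.single 2 p := by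
    rw [hs]; exact Nat.Prime.factorization_pow Nat.prime_two
  have hvs : v m s s ⟨2, h2P⟩ = (p : ZMod m) := by
    simp only [v]
    rw [hfac]
    simp
  have hvs0 : ∀ q : P s, q ≠ ⟨2, h2P⟩ → v m s s q = 0 := by
    intro q hq
    simp only [v]
    rw [hfac, Finsupp.single_apply, if_neg]
    · simp
    · intro h
      apply hq
      exact Subtype.ext h.symm
  have hkv : (k : ZMod m) • v m s s = 0 := by
    funext q
    by_cases hq : q = ⟨2, h2P⟩
    · rw [hq, Pi.smul_apply, hvs, smul_eq_mul, ← Nat.cast_mul, mul_comm, ← hk, Pi.zero_apply]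
      exact ZMod.natCast_self m
    · rw [Pi.smul_apply, hvs0 q hq, smul_zero, Pi.zero_apply]
  have hkm : k < m := by
    rw [hk]
    have := hp.two_le
    nlinarith
  have hsA : s ∉ A := by
    intro hsA
    rw [hA, mem_filter] at hsA
    have := hsA.2 (fun _ => (k : ZMod m)) (by
      rw [Icc_self, sum_singleton]; exact hkv)
    rw [ZMod.natCast_eq_zero_iff] at this
    have := Nat.le_of_dvd (by omega) this
    omega
  -- the injection
  let f : (A → ZMod m) × Fin k → (P s → ZMod m) := fun x =>
    (∑ a : A, x.1 a • v m s a) + ((x.2 : ℕ) : ZMod m) • v m s s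
  have hf : Function.Injective f := by
    rintro ⟨c, t⟩ ⟨c', t'⟩ hcc
    simp only [f] at hcc
    have hcc' : c = c' := by
      by_contra hne
      -- least index where they differ
      have hex : ∃ n, ∃ h : n ∈ A, c ⟨n, h⟩ ≠ c' ⟨n, h⟩ := by
        by_contra hall
        push Not at hall
        exact hne (funext fun a => hall a.1 a.2)
      classical
      obtain ⟨hnA, hn⟩ := Nat.find_spec hex
      set n := Nat.find hex with hndef
      have hmin : ∀ n' < n, ∀ h : n' ∈ A, c ⟨n', h⟩ = c' ⟨n', h⟩ := by
        intro n' hn' h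
        by_contra hcon
        exact Nat.find_min hex hn' ⟨h, hcon⟩
      have hnA' := hnA
      rw [hA, mem_filter, mem_Icc] at hnA'
      have hns : n < s := lt_of_le_of_ne hnA'.1.2 fun h => hsA (h ▸ hnA)
      let d : ℕ → ZMod m := fun i =>
        (if h : i ∈ A then c ⟨i, h⟩ - c' ⟨i, h⟩ else 0) +
          (if i = s then ((t : ℕ) : ZMod m) - ((t' : ℕ) : ZMod m) else 0)
      have hd0 : d n = 0 := by
        apply hnA'.2 d
        have e1 : ∑ i ∈ Icc n s, d i • v m s i =
            ∑ i ∈ Icc n s, (if h : i ∈ A then c ⟨i, h⟩ - c' ⟨i, h⟩ else 0) • v m s i +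
            ∑ i ∈ Icc n s, (if i = s then ((t : ℕ) : ZMod m) - ((t' : ℕ) : ZMod m) else 0) •
              v m s i := by
          rw [← sum_add_distrib]
          refine sum_congr rfl fun i _ => ?_
          rw [← add_smul]
        have e2 : ∑ i ∈ Icc n s,
            (if i = s then ((t : ℕ) : ZMod m) - ((t' : ℕ) : ZMod m) else 0) • v m s i =
            (((t : ℕ) : ZMod m) - ((t' : ℕ) : ZMod m)) • v m s s := by
          rw [sum_eq_single s]
          · simp
          · intro b _ hb
            simp [hb]
          · intro h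
            exact absurd (mem_Icc.mpr ⟨hns.le, le_refl _⟩) h
        have e3 : ∑ i ∈ Icc n s, (if h : i ∈ A then c ⟨i, h⟩ - c' ⟨i, h⟩ else 0) • v m s i =
            ∑ a : A, (c a - c' a) • v m s a := by
          have e4 : ∑ a : A, (c a - c' a) • v m s a =
              ∑ i ∈ A, (if h : i ∈ A then c ⟨i, h⟩ - c' ⟨i, h⟩ else 0) • v m s i := by
            rw [← sum_coe_sort A
              (fun i => (if h : i ∈ A then c ⟨i, h⟩ - c' ⟨i, h⟩ else 0) • v m s i)]
            refine sum_congr rfl fun a _ => ?_
            rw [dif_pos a.2]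
          rw [e4]
          have e5 : A.filter (fun i => n ≤ i) ⊆ A := filter_subset _ _
          rw [← sum_subset e5]
          · symm
            apply sum_subset
            · intro i hi
              rw [mem_filter] at hi
              rw [mem_Icc]
              have := hi.1
              rw [hA, mem_filter, mem_Icc] at this
              exact ⟨hi.2, this.1.2⟩
            · intro i hi hi'
              rw [mem_Icc] at hi
              have : i ∉ A := fun h => hi' (mem_filter.mpr ⟨h, hi.1⟩)
              rw [dif_neg this, zero_smul]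
          · intro i hi hi'
            have : i < n := by
              by_contra hcon
              exact hi' (mem_filter.mpr ⟨hi, by omega⟩)
            rw [dif_pos hi, hmin i this hi, sub_self, zero_smul]
        rw [e1, e2, e3]
        simp only [sub_smul, sum_sub_distrib]
        have := sub_eq_zero.mpr hcc
        rw [← this]
        abel
      simp only [d] at hd0
      rw [dif_pos hnA, if_neg (by omega), add_zero, sub_eq_zero] at hd0
      exact hn hd0
    subst hcc'
    have h1 : ((t : ℕ) : ZMod m) • v m s s = ((t' : ℕ) : ZMod m) • v m s s := by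
      simpa using hcc
    have h2 := congrFun h1 ⟨2, h2P⟩
    rw [Pi.smul_apply, Pi.smul_apply, hvs, smul_eq_mul, smul_eq_mul, ← Nat.cast_mul,
      ← Nat.cast_mul, ZMod.natCast_eq_natCast_iff'] at h2
    have h3 : (t : ℕ) * p < m := by
      rw [hk, mul_comm]
      exact Nat.mul_lt_mul_of_pos_left t.2 hp.pos
    have h4 : (t' : ℕ) * p < m := by
      rw [hk, mul_comm]
      exact Nat.mul_lt_mul_of_pos_left t'.2 hp.pos
    rw [Nat.mod_eq_of_lt h3, Nat.mod_eq_of_lt h4] at h2
    have h5 : (t : ℕ) = t' := Nat.eq_of_mul_eq_mul_right hp.pos h2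
    have h6 : t = t' := Fin.ext h5
    rw [h6]
  have hcard := Fintype.card_le_of_injective f hf
  rw [Fintype.card_prod, Fintype.card_fun, Fintype.card_fun, ZMod.card, Fintype.card_fin,
    Fintype.card_coe, Fintype.card_coe] at hcard
  have hgoal : A.card < (P s).card := by
    by_contra hcon
    push Not at hcon
    have h1 : m ^ (P s).card ≤ m ^ A.card := Nat.pow_le_pow_right (by omega) hcon
    have h2 : 0 < m ^ A.card := pow_pos (by omega) _
    nlinarith
  exact hgoal

lemma card_nonprime (s : ℕ) :
    ((range (s + 1)).filter (fun n => ¬ n.Prime)).card + (P s).card = s + 1 := by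
  have := card_filter_add_card_filter_not (s := range (s + 1)) Nat.Prime
  rw [card_range] at this
  rw [P]
  omega

theorem result (m : ℕ) (hm : 2 ≤ m) (hc : ¬ m.Prime) :
    (∀ n, IsLeast (ends m n) (g m n)) ∧
    ¬ Function.Injective (g m) ∧
    ∀ p : ℕ, p.Prime → p ∣ m →
      ∃ n₁ n₂ : ℕ, n₁ < n₂ ∧ n₂ ≤ 2 ^ p ∧ g m n₁ = g m n₂ ∧ g m n₁ ≤ 2 ^ p := by
  classical
  have hm3 : 3 ≤ m := by
    rcases Nat.lt_or_ge m 3 with h | h
    · exfalso
      interval_cases m
      exact hc Nat.prime_two
    · exact h
  have hleast : ∀ n, IsLeast (ends m n) (g m n) := fun n =>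
    ⟨Nat.sInf_mem (ends_nonempty hm3 n), fun s hs => Nat.sInf_le hs⟩
  have hg0 : g m 0 = 0 := Nat.le_zero.mp ((hleast 0).2 (zero_mem hm))
  have hmain : ∀ p : ℕ, p.Prime → p ∣ m →
      ∃ n₁ n₂ : ℕ, n₁ < n₂ ∧ n₂ ≤ 2 ^ p ∧ g m n₁ = g m n₂ ∧ g m n₁ ≤ 2 ^ p := by
    intro p hp hpm
    set s := 2 ^ p with hs
    have hfree := card_free hs hp hpm hc hm
    set B := (range (s + 1)).filter (fun n => n = 0 ∨ ¬ Free m s n) with hB
    set C := (range (s + 1)).filter (fun n => ¬ n.Prime) with hC
    have hCcard : C.card + (P s).card = s + 1 := by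
      rw [← card_nonprime s, hC]
    have hBcard : s + 1 ≤ B.card + ((Icc 1 s).filter (Free m s)).card := by
      have hsub : range (s + 1) ⊆ B ∪ (Icc 1 s).filter (Free m s) := by
        intro n hn
        rw [mem_union, hB, mem_filter, mem_filter, mem_Icc]
        rw [mem_range] at hn
        by_cases h0 : n = 0
        · left
          exact ⟨by rw [mem_range]; omega, Or.inl h0⟩
        · by_cases hF : Free m s n
          · right
            exact ⟨⟨by omega, by omega⟩, hF⟩
          · left
            exact ⟨by rw [mem_range]; omega, Or.inr hF⟩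
      have := (card_le_card hsub).trans (card_union_le _ _)
      rwa [card_range] at this
    have hlt : C.card < B.card := by omega
    have hmaps : ∀ n ∈ B, g m n ∈ C ∧ g m n ≤ s := by
      intro n hn
      rw [hB, mem_filter, mem_range] at hn
      by_cases h0 : n = 0
      · subst h0
        rw [hg0, hC, mem_filter, mem_range]
        exact ⟨⟨by omega, Nat.not_prime_zero⟩, by omega⟩
      · have hnf : ¬ Free m s n := by
          rcases hn.2 with h | h
          · exact absurd h h0
          · exact h
        obtain ⟨s', hs', hs's⟩ := exists_end_of_not_free hm (by omega) (by omega) hnf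
        have h1 : g m n ≤ s := ((hleast n).2 hs').trans hs's
        have h2 := not_prime_of_mem hm (by omega : 1 ≤ n) (hleast n).1
        rw [hC, mem_filter, mem_range]
        exact ⟨⟨by omega, h2⟩, h1⟩
    obtain ⟨x, hx, y, hy, hxy, hgxy⟩ :=
      exists_ne_map_eq_of_card_lt_of_maps_to hlt (fun n hn => (hmaps n hn).1)
    have hxs : x ≤ s := by
      rw [hB, mem_filter, mem_range] at hx; omega
    have hys : y ≤ s := by
      rw [hB, mem_filter, mem_range] at hy; omega
    rcases lt_or_gt_of_ne hxy with h | h
    · exact ⟨x, y, h, hys, hgxy, (hmaps x hx).2⟩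
    · exact ⟨y, x, h, hxs, hgxy.symm, (hmaps y hy).2⟩
  refine ⟨hleast, ?_, hmain⟩
  intro hinj
  obtain ⟨n₁, n₂, h1, _, h3, _⟩ := hmain m.minFac (Nat.minFac_prime (by omega)) (Nat.minFac_dvd m)
  have := hinj h3
  omega

end Pool.Agent.Results.MP_75d27e_nt.NotInjective
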